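import Pool.Agent.H460U.TR.All
import Pool.Agent.H460U.TR.FinalH

/-!
# MP_56c4bc_an: a proper transitive algebra containing the bilateral shift

Full negative answer to Q1. Let `H` be a Hilbert space with orthonormal basis `(e_n)`, `n ∈ ℤ`
(such as `ℓ²(ℤ)`). There is a subalgebra `Alg` of the bounded operators on `H`, with identity, closed in the weak operator topology, different from the algebra of all bounded
operators, which contains the bilateral shift `U e_n = e_{n+1}` and has no closed invariant
subspaces besides `0` and the whole space.

Construction. Let `H²` be the Hardy space of the circle. There is a unitary valued measurable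
2x2 matrix function `Φ`, an infinite product of explicit polynomial loops in `bl(z^{N_k})`,
`bl(z) = (z-1/2)/(1-z/2)`, with odd winding `5^{n_k}` but close to the identity after division by
a measurable square root of the determinant. `Alg` is the algebra of all `A` such that `A ⊕ A`
leaves `G = Φ H²(ℂ²)` invariant. It contains multiplication by `z` (but not by `1/z`) and
weighted rotations `f(x) ↦ w_g(x) f(x+g)` for a dense group of `g`. A closed invariant subspace is
`χ_E L²`, and then `E` is invariant under rotations, or `φ H²` with `|φ| = 1`; in the second case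
`φ²` is, up to functions of `z^{N_{k+1}}`, a product of ODD powers of the `bl(z^{N_j})`, which
contradicts the continuity of translations in `L²`.

Paper proof and statements: helper460. Formal proofs of the parts: helpers 171 181 212 263 350 352
36 360 37 372 396 569 571 59 616 624 649 656 658 679 68 742 747 788 804 828 87 944; referee:
helper544.
-/

set_option autoImplicit false

open scoped InnerProductSpace

namespace Pool.Agent.Results.MP_56c4bc_an.ProperTransitive

variable {H : Type} [NormedAddCommGroup H] [InnerProductSpace ℂ H]

/-- `U` is the bilateral shift with respect to the orthonormal basis `b`: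
`U b_n = b_{n+1}` for every integer `n`. -/
def IsShift (b : HilbertBasis ℤ ℂ H) (U : H →L[ℂ] H) : Prop :=
  ∀ n : ℤ, U (b n) = b (n + 1)

/-- The algebra is closed in the weak operator topology. -/
def WeaklyClosed (Alg : Subalgebra ℂ (H →L[ℂ] H)) : Prop :=
  ∀ T : H →L[ℂ] H, (∀ (F : Finset (H × H)) (ε : ℝ), 0 < ε →
    ∃ S ∈ Alg, ∀ p ∈ F, ‖⟪(T - S) p.1, p.2⟫_ℂ‖ < ε) → T ∈ Alg

/-- The only closed subspaces invariant under the algebra are `0` and the whole space. -/
def Transitive (Alg : Subalgebra ℂ (H →L[ℂ] H)) : Prop :=
  ∀ M : Submodule ℂ H, IsClosed (M : Set H) →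
    (∀ A ∈ Alg, ∀ f ∈ M, A f ∈ M) → M = ⊥ ∨ M = ⊤

/-- On every Hilbert space with an orthonormal basis indexed by the integers (that is, on
`ℓ²(ℤ)`) there is a proper, weakly closed, transitive algebra of operators, with identity, which
contains the bilateral shift. -/
theorem result (H : Type) [NormedAddCommGroup H] [InnerProductSpace ℂ H] [CompleteSpace H]
    (b : HilbertBasis ℤ ℂ H) :
    ∃ (Alg : Subalgebra ℂ (H →L[ℂ] H)) (U : H →L[ℂ] H),
      IsShift b U ∧ U ∈ Alg ∧ WeaklyClosed Alg ∧ Transitive Alg ∧ Alg ≠ ⊤ :=
  Pool.Agent.H460U.final_H Pool.Agent.H460U.all_L2 H b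

end Pool.Agent.Results.MP_56c4bc_an.ProperTransitive
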